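import Pool.Agent.Helper83K9.CF.Stm

/-!
Clique factors in dense subgraphs of powers of cycles: the fractional tiling theorem on the line
for all `t` under the stronger condition `t μ(Q[x]) ≤ μ(W)`: every window is perfectly
fractionally tiled (dual form: the sum over every window is nonnegative).
-/

set_option autoImplicit false

namespace Pool.Agent.Helper74K9.HS

open Finset Pool.Agent.Helper83K9.CF

namespace WinL

open Classical in
/-- the greedy by increasing `s` inside one window -/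
theorem greedy (q : ℕ → ℕ → Prop) (hq1 : ∀ x, q x x) (hq2 : ∀ x y, q x y → q y x)
    (μ s : ℕ → ℝ) (hμ : ∀ x, 0 ≤ μ x) (c : ℝ) (hc : 0 < c) :
    ∀ (j : ℕ) (J : Finset ℕ), (∀ x ∈ J, ∑ y ∈ J.filter (fun y => q x y), μ y ≤ c) →
      ((j : ℝ) + 1) * c ≤ ∑ y ∈ J, μ y →
      ∃ K : Finset ℕ, K ⊆ J ∧ K.card = j + 1 ∧ (∀ x ∈ K, ∀ y ∈ K, x ≠ y → ¬ q x y) ∧
        ∃ v ∈ J, c * ∑ x ∈ K, s x + (∑ y ∈ J, μ y - ((j : ℝ) + 1) * c) * s v ≤
          ∑ y ∈ J, s y * μ y := by
  intro j
  induction j with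
  | zero =>
    intro J _ hJ
    have hne : J.Nonempty := by
      by_contra h
      rw [Finset.not_nonempty_iff_eq_empty] at h
      rw [h] at hJ
      simp at hJ
      linarith
    obtain ⟨v, hv, hmin⟩ := J.exists_min_image s hne
    refine ⟨{v}, by simpa using hv, by simp, ?_, v, hv, ?_⟩
    · intro x hx y hy hxy
      rw [Finset.mem_singleton] at hx hy
      exact absurd (hx.trans hy.symm) hxy
    · have h1 : ∑ y ∈ J, s v * μ y ≤ ∑ y ∈ J, s y * μ y :=
        Finset.sum_le_sum fun y hy => mul_le_mul_of_nonneg_right (hmin y hy) (hμ y)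
      rw [← Finset.mul_sum] at h1
      rw [Finset.sum_singleton]
      push_cast
      refine le_trans (le_of_eq ?_) h1
      ring
  | succ j ih =>
    intro J hQ hJ
    have hne : J.Nonempty := by
      by_contra h
      rw [Finset.not_nonempty_iff_eq_empty] at h
      rw [h] at hJ
      simp only [Finset.sum_empty] at hJ
      have : (0 : ℝ) < (((j + 1 : ℕ) : ℝ) + 1) * c := by positivity
      linarith
    obtain ⟨v, hv, hmin⟩ := J.exists_min_image s hne
    obtain ⟨J₁, hJ₁⟩ : ∃ J₁, J₁ = J.filter (fun y => ¬ q v y) := ⟨_, rfl⟩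
    have hsub : J₁ ⊆ J := by rw [hJ₁]; exact Finset.filter_subset _ _
    have hsplit : ∀ f : ℕ → ℝ, ∑ y ∈ J, f y =
        ∑ y ∈ J.filter (fun y => q v y), f y + ∑ y ∈ J₁, f y := by
      intro f
      rw [hJ₁, Finset.sum_filter_add_sum_filter_not]
    have ha := hQ v hv
    obtain ⟨a, hae⟩ : ∃ a, a = ∑ y ∈ J.filter (fun y => q v y), μ y := ⟨_, rfl⟩
    rw [← hae] at ha
    have hμJ := hsplit μ
    rw [← hae] at hμJ
    push_cast at hJ
    obtain ⟨K, hK1, hK2, hK3, w, hw, hsum⟩ := ih J₁ (by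
      intro x hx
      refine le_trans (Finset.sum_le_sum_of_subset_of_nonneg ?_ (fun y _ _ => hμ y))
        (hQ x (hsub hx))
      exact Finset.filter_subset_filter _ hsub) (by linarith)
    have hvK : v ∉ K := by
      intro h
      have := hK1 h
      rw [hJ₁, Finset.mem_filter] at this
      exact this.2 (hq1 v)
    refine ⟨insert v K, ?_, ?_, ?_, w, hsub hw, ?_⟩
    · intro x hx
      rw [Finset.mem_insert] at hx
      rcases hx with rfl | hx
      · exact hv
      · exact hsub (hK1 hx)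
    · rw [Finset.card_insert_of_notMem hvK, hK2]
    · have hnv : ∀ y ∈ K, ¬ q v y := by
        intro y hy
        have := hK1 hy
        rw [hJ₁, Finset.mem_filter] at this
        exact this.2
      intro x hx y hy hxy
      rw [Finset.mem_insert] at hx hy
      rcases hx with rfl | hx <;> rcases hy with rfl | hy
      · exact absurd rfl hxy
      · exact hnv y hy
      · exact fun h => hnv x hx (hq2 _ _ h)
      · exact hK3 x hx y hy hxy
    · rw [hsplit (fun y => s y * μ y), Finset.sum_insert hvK]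
      have h1 : s v * a ≤ ∑ y ∈ J.filter (fun y => q v y), s y * μ y := by
        rw [hae, Finset.mul_sum]
        exact Finset.sum_le_sum fun y hy =>
          mul_le_mul_of_nonneg_right (hmin y (Finset.mem_filter.1 hy).1) (hμ y)
      have h2 : (c - a) * s v ≤ (c - a) * s w :=
        mul_le_mul_of_nonneg_left (hmin w (hsub hw)) (by linarith)
      push_cast
      rw [hμJ]
      nlinarith

open Classical in
/-- one window -/
theorem window (t : ℕ) (ht : 1 ≤ t) (q : ℕ → ℕ → Prop) (hq1 : ∀ x, q x x)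
    (hq2 : ∀ x y, q x y → q y x) (μ s : ℕ → ℝ) (hμ : ∀ x, 0 ≤ μ x) (J : Finset ℕ)
    (hQ : ∀ x ∈ J, (t : ℝ) * ∑ y ∈ J.filter (fun y => q x y), μ y ≤ ∑ y ∈ J, μ y)
    (hK : ∀ K : Finset ℕ, K ⊆ J → K.card = t → (∀ x ∈ K, ∀ y ∈ K, x ≠ y → ¬ q x y) →
      0 ≤ ∑ x ∈ K, s x) :
    0 ≤ ∑ y ∈ J, s y * μ y := by
  have htr : (0 : ℝ) < t := by exact_mod_cast ht
  have h0 : 0 ≤ ∑ y ∈ J, μ y := Finset.sum_nonneg fun y _ => hμ y
  rcases h0.eq_or_lt with h | h
  · have h1 : ∀ y ∈ J, μ y = 0 := (Finset.sum_eq_zero_iff_of_nonneg fun y _ => hμ y).1 h.symm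
    rw [Finset.sum_eq_zero fun y hy => by rw [h1 y hy, mul_zero]]
  · obtain ⟨K, h1, h2, h3, v, _, h5⟩ := greedy q hq1 hq2 μ s hμ ((∑ y ∈ J, μ y) / t)
      (by positivity) (t - 1) J (by
        intro x hx
        rw [le_div_iff₀ htr, mul_comm]
        exact hQ x hx) (by
        rw [Nat.cast_sub ht]
        push_cast
        rw [sub_add_cancel, mul_div_cancel₀ _ htr.ne'])
    have h6 := hK K h1 (by omega) h3
    have e1 : (((t - 1 : ℕ) : ℝ) + 1) * ((∑ y ∈ J, μ y) / t) = ∑ y ∈ J, μ y := by
      rw [Nat.cast_sub ht]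
      push_cast
      rw [sub_add_cancel, mul_div_cancel₀ _ htr.ne']
    rw [e1, sub_self, zero_mul, add_zero] at h5
    exact le_trans (by positivity) h5

end WinL

/-- the dual form on the line -/
def T_DUAL (t : ℕ) : Prop := ∀ (k N : ℕ) (q : ℕ → ℕ → Prop) (μ s : ℕ → ℝ), 2 ≤ t → 1 ≤ k →
  (∀ x, q x x) → (∀ x y, q x y → q y x) → (∀ x, 0 ≤ μ x) →
  (∀ z x, k ≤ z → z ≤ N → x < N → z ≤ x + k → x ≤ z + k →
    (t : ℝ) * ∑ y ∈ LQ q k N x, μ y ≤ ∑ y ∈ Ico (z - k) z, μ y) →
  (∀ x, x < k → 0 ≤ s x) → (∀ K, LCl q k N t K → 0 ≤ ∑ x ∈ K, s x) →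
  0 ≤ ∑ x ∈ range N, s x * μ x

open Classical in
theorem dual (t : ℕ) : T_DUAL t := by
  intro k N
  induction N using Nat.strong_induction_on with
  | _ N ih =>
    intro q μ s ht hk hq1 hq2 hμ hw hs hK
    rcases lt_or_ge N k with hN | hN
    · exact Finset.sum_nonneg fun x hx =>
        mul_nonneg (hs x (by have := Finset.mem_range.1 hx; omega)) (hμ x)
    · have h1 : 0 ≤ ∑ x ∈ range (N - k), s x * μ x := by
        refine ih (N - k) (by omega) q μ s ht hk hq1 hq2 hμ ?_ hs ?_
        · intro z x h1 h2 h3 h4 h5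
          refine le_trans (mul_le_mul_of_nonneg_left ?_ (Nat.cast_nonneg t))
            (hw z x h1 (by omega) (by omega) h4 h5)
          refine Finset.sum_le_sum_of_subset_of_nonneg ?_ (fun y _ _ => hμ y)
          unfold LQ
          exact Finset.filter_subset_filter _ (Finset.range_subset_range.2 (by omega))
        · intro K h
          exact hK K ⟨h.1.trans (Finset.range_subset_range.2 (by omega)), h.2.1, h.2.2⟩
      have h2 : 0 ≤ ∑ x ∈ Ico (N - k) N, s x * μ x := by
        refine WinL.window t (by omega) q hq1 hq2 μ s hμ _ ?_ ?_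
        · intro x hx
          rw [Finset.mem_Ico] at hx
          refine le_trans (mul_le_mul_of_nonneg_left ?_ (Nat.cast_nonneg t))
            (hw N x hN le_rfl hx.2 (by omega) (by omega))
          refine Finset.sum_le_sum_of_subset_of_nonneg ?_ (fun y _ _ => hμ y)
          intro y hy
          rw [Finset.mem_filter, Finset.mem_Ico] at hy
          unfold LQ
          rw [Finset.mem_filter, Finset.mem_range]
          exact ⟨hy.1.2, by omega, by omega, hy.2⟩
        · intro K h3 h4 h5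
          refine hK K ⟨?_, h4, ?_⟩
          · intro x hx
            have := Finset.mem_Ico.1 (h3 hx)
            exact Finset.mem_range.2 this.2
          · intro x hx y hy hxy
            have h6 := Finset.mem_Ico.1 (h3 hx)
            have h7 := Finset.mem_Ico.1 (h3 hy)
            exact ⟨by omega, h5 x hx y hy (by omega)⟩
      rw [← Finset.sum_range_add_sum_Ico _ (Nat.sub_le N k)]
      linarith

end Pool.Agent.Helper74K9.HS
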