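import Pool.Agent.Helper83K9.CF.Frac
import Pool.Agent.Helper83K9.CF.Dist
import Pool.Agent.Helper83K9.CF.Arc1
import Pool.Agent.Helper83K9.CF.Alm
import Pool.Agent.Helper83K9.CF.Up
import Pool.Agent.Helper83K9.CF.Red
import Pool.Agent.Helper74K9.HS.Win

/-!
Clique factors in dense subgraphs of powers of cycles: the chain of reductions under the stronger
condition `t (m + 1) ≤ (1 - ε) k` (variant of `Helper83K9/CF/Fix.lean`, where it is
`(t - 1) (m + 1) ≤ (1 - ε) k`).
-/

set_option autoImplicit false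

namespace Pool.Agent.Helper74K9.HS

open Finset Pool.Agent.Helper83K9.CF

lemma less (t m : ℕ) (_ht : 2 ≤ t) {a : ℝ} (h : (t : ℝ) * (m + 1) ≤ a) :
    ((t : ℝ) - 1) * (m + 1) ≤ a := by
  have : (0 : ℝ) ≤ m := Nat.cast_nonneg m
  nlinarith

/-- `S_FRAC` for one `t` -/
def T_FRAC (t : ℕ) : Prop := ∀ (k N : ℕ) (q : ℕ → ℕ → Prop) (μ : ℕ → ℝ), 2 ≤ t → 1 ≤ k →
  (∀ x, q x x) → (∀ x y, q x y → q y x) → (∀ x, 0 ≤ μ x) →
  (∀ z x, k ≤ z → z ≤ N → x < N → z ≤ x + k → x ≤ z + k →
    (t : ℝ) * ∑ y ∈ LQ q k N x, μ y ≤ ∑ y ∈ Ico (z - k) z, μ y) →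
  ∃ w : Finset ℕ → ℝ, (∀ K, 0 ≤ w K) ∧ (∀ K, w K ≠ 0 → LCl q k N t K) ∧
    (∀ v, v < N → ∑ K ∈ (range N).powerset, (if v ∈ K then w K else 0) ≤ μ v) ∧
    ∀ v, k ≤ v → v < N → ∑ K ∈ (range N).powerset, (if v ∈ K then w K else 0) = μ v

/-- `S_DIST` for one `t` -/
def T_DIST (t : ℕ) : Prop := ∀ (n k m N : ℕ) [NeZero n] (M : ZMod n → Finset (ZMod n)),
  Host n k m M → 2 ≤ t → k ≤ N → ∀ U A : Finset (ZMod n),
  (∀ z ∈ A, ∀ j : ℕ, j + k ≤ N → ∀ i : ℕ, i ≤ 2 * k →
    (t : ℝ) * (M (z + (j : ZMod n) + (i : ZMod n)) ∩ U).card ≤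
      (win n k (z + (j : ZMod n)) ∩ U).card) →
  ∃ w : Finset (ZMod n) → ℝ, (∀ K, 0 ≤ w K) ∧ (∀ K, w K ≠ 0 → IsCl n k M t K ∧ K ⊆ U) ∧
    ∀ v ∈ U, rate n k N A v ≤ ∑ K, (if v ∈ K then w K else 0) ∧
      ∑ K, (if v ∈ K then w K else 0) ≤ rate n k N A v + err n k N A v

/-- `S_ARC1` for one `t` -/
def T_ARC1 (t : ℕ) : Prop := ∀ (ε : ℝ), 2 ≤ t → 0 < ε → ε ≤ 1 → ∃ β : ℝ, 0 < β ∧ β ≤ 1 / 4 ∧
  ∀ τ γ : ℝ, 0 < τ → 0 < γ → γ ≤ β → ∃ M₀ k₀ : ℕ, 3 ≤ M₀ ∧
  ∀ (n k m : ℕ) [NeZero n] (M : ZMod n → Finset (ZMod n)), Host n k m M → k₀ ≤ k →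
  (t : ℝ) * (m + 1) ≤ (1 - ε) * k → ∀ (Ar : Finset (ZMod n)), Arc n (M₀ * k) Ar →
  ∀ (U : Finset (ZMod n)) (D : ZMod n → ℝ),
  (∀ v, ∀ σ : ℝ, 0 ≤ σ → σ ≤ τ + 1 →
    Real.exp (-(τ + 1)) ≤ D v * Real.exp (-(σ * rate n k (M₀ * k) Ar v)) ∧
    D v * Real.exp (-(σ * rate n k (M₀ * k) Ar v)) ≤ 1) →
  (∀ σ : ℝ, 0 ≤ σ → σ ≤ τ + 1 → Slow n (2 * (τ + 1) / (M₀ * k : ℕ))
    (fun v => D v * Real.exp (-(σ * rate n k (M₀ * k) Ar v)))) →
  St n k M ((β - γ) * k) U D →
  ∃ (σ : ℝ) (F : Finset (Finset (ZMod n))), τ ≤ σ ∧ σ ≤ τ + 1 ∧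
    (∀ K ∈ F, IsCl n k M t K ∧ K ⊆ U) ∧ (∀ K ∈ F, ∀ L ∈ F, K ≠ L → Disjoint K L) ∧
    (∀ K ∈ F, ∀ v ∈ K, ∃ i : ℕ, i < M₀ * k ∧ v - (i : ZMod n) ∈ Ar) ∧
    (∀ x, |Y (M x) (U \ F.biUnion id) (fun v => D v * Real.exp (-(σ * rate n k (M₀ * k) Ar v)))
      - Y (M x) U D| ≤ γ * k) ∧
    ∀ y, |Y (win n k y) (U \ F.biUnion id)
      (fun v => D v * Real.exp (-(σ * rate n k (M₀ * k) Ar v))) - Y (win n k y) U D| ≤ γ * k

/-- `S_ALM` for one `t` -/
def T_ALM (t : ℕ) : Prop := ∀ (ε : ℝ), 2 ≤ t → 0 < ε → ε ≤ 1 → ∃ γ : ℝ, 0 < γ ∧ ∀ δ : ℝ, 0 < δ →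
  ∃ k₀ : ℕ, ∀ (n k m : ℕ) [NeZero n] (M : ZMod n → Finset (ZMod n)), Host n k m M → k₀ ≤ k →
  (t : ℝ) * (m + 1) ≤ (1 - ε) * k → ∀ B : Finset (ZMod n), Thin n k (γ * k) B →
  ∃ F : Finset (Finset (ZMod n)), (∀ K ∈ F, IsCl n k M t K ∧ Disjoint K B) ∧
    (∀ K ∈ F, ∀ L ∈ F, K ≠ L → Disjoint K L) ∧ Thin n k (δ * k) ((B ∪ F.biUnion id)ᶜ)

/-- `S_UP` for one `t` -/
def T_UP (t : ℕ) : Prop := ∀ (ε : ℝ), 2 ≤ t → 0 < ε → ε ≤ 1 → ∃ k₀ : ℕ,
  ∀ (n k m : ℕ) [NeZero n] (M : ZMod n → Finset (ZMod n)), Host n k m M → k₀ ≤ k →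
  (t : ℝ) * (m + 1) ≤ (1 - ε) * k → t ∣ n → Tile n k M t univ

theorem frac (t : ℕ) (hD : T_DUAL t) (hF : S_FARKAS) : T_FRAC t := by
  classical
  intro k N q μ ht hk hq1 hq2 hμ hcond
  set C : Finset (Finset ℕ) := (range N).powerset.filter (fun K => LCl q k N t K) with hC
  obtain ⟨w, hw0, hw⟩ := hF (Fin N) C (fun v K => if (v : ℕ) ∈ K.1 then 1 else 0)
    (fun v => μ v) (fun v => (v : ℕ) < k) (by
      intro s hs hsK
      have h1 := hD k N q μ (fun x => if h : x < N then s ⟨x, h⟩ else 0) ht hk hq1 hq2 hμ hcond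
        (by
          intro x hx
          beta_reduce
          split_ifs with h
          · exact hs ⟨x, h⟩ hx
          · exact le_rfl)
        (by
          intro K hK
          have hKC : K ∈ C := by
            rw [hC, Finset.mem_filter, Finset.mem_powerset]
            exact ⟨hK.1, hK⟩
          have h2 := hsK ⟨K, hKC⟩
          refine h2.trans (le_of_eq ?_)
          have h3 : ∑ x ∈ K, (if h : x < N then s ⟨x, h⟩ else 0) =
              ∑ x ∈ range N, if x ∈ K then (if h : x < N then s ⟨x, h⟩ else 0) else 0 := by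
            rw [Finset.sum_ite_mem, Finset.inter_eq_right.2 hK.1]
          rw [h3, Finset.sum_range]
          refine Finset.sum_congr rfl fun v _ => ?_
          simp only [v.isLt, dif_pos, mul_ite, mul_one, mul_zero, Fin.eta])
      rw [Finset.sum_range] at h1
      refine h1.trans (le_of_eq (Finset.sum_congr rfl fun v _ => ?_))
      simp only [v.isLt, dif_pos, Fin.eta])
  have hsum : ∀ v : ℕ, ∀ hv : v < N, ∑ K ∈ (range N).powerset,
      (if v ∈ K then (if h : K ∈ C then w ⟨K, h⟩ else 0) else 0) =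
      ∑ i : C, (if ((⟨v, hv⟩ : Fin N) : ℕ) ∈ i.1 then (1 : ℝ) else 0) * w i := by
    intro v hv
    have h1 : ∑ K ∈ (range N).powerset,
        (if v ∈ K then (if h : K ∈ C then w ⟨K, h⟩ else 0) else 0) =
        ∑ K ∈ C, (if v ∈ K then (if h : K ∈ C then w ⟨K, h⟩ else 0) else 0) := by
      refine (Finset.sum_subset (Finset.filter_subset _ _) fun K _ hK => ?_).symm
      rw [dif_neg hK]
      simp
    rw [h1, ← Finset.sum_coe_sort C]
    refine Finset.sum_congr rfl fun i _ => ?_
    rw [dif_pos i.2]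
    simp only [ite_mul, one_mul, zero_mul]
  refine ⟨fun K => if h : K ∈ C then w ⟨K, h⟩ else 0, fun K => ?_, fun K hK => ?_, fun v hv => ?_,
    fun v hkv hv => ?_⟩
  · beta_reduce
    split_ifs with h
    · exact hw0 _
    · exact le_rfl
  · have : K ∈ C := by
      by_contra h
      exact hK (dif_neg h)
    exact (Finset.mem_filter.1 this).2
  · rw [hsum v hv]
    have h1 := hw ⟨v, hv⟩
    by_cases h : v < k
    · exact h1.1 h
    · exact (h1.2 h).le
  · rw [hsum v hv]
    exact (hw ⟨v, hv⟩).2 (not_lt.2 hkv)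

open DistL in
theorem one (n k m t N : ℕ) (hF : T_FRAC t) [NeZero n] (M : ZMod n → Finset (ZMod n))
    (hM : Host n k m M) (ht : 2 ≤ t) (U : Finset (ZMod n)) (z : ZMod n)
    (hA : ∀ j : ℕ, j + k ≤ N → ∀ i : ℕ, i ≤ 2 * k →
      (t : ℝ) * (M (z + (j : ZMod n) + (i : ZMod n)) ∩ U).card ≤
        (win n k (z + (j : ZMod n)) ∩ U).card) :
    ∃ w : Finset ℕ → ℝ, (∀ K, 0 ≤ w K) ∧
      (∀ K, w K ≠ 0 → (∀ x ∈ K, ∀ y ∈ K, x ≤ y + k) ∧
        IsCl n k M t (K.image fun i : ℕ => z + (i : ZMod n)) ∧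
        (K.image fun i : ℕ => z + (i : ZMod n)) ⊆ U) ∧
      (∀ v < N, ∑ K ∈ (range N).powerset, (if v ∈ K then w K else 0) ≤ 1) ∧
      ∀ v, k ≤ v → v < N → z + (v : ZMod n) ∈ U →
        ∑ K ∈ (range N).powerset, (if v ∈ K then w K else 0) = 1 := by
  classical
  have hk := hM.kpos
  have hn := hM.size
  obtain ⟨w, h0, h1, h2, h3⟩ := hF k N (fun i j => i = j ∨ z + (j : ZMod n) ∈ M (z + (i : ZMod n)))
    (fun i => if z + (i : ZMod n) ∈ U then 1 else 0) ht hk (fun x => Or.inl rfl)
    (fun x y h => h.elim (fun h => Or.inl h.symm) (fun h => Or.inr (hM.symm _ _ h)))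
    (fun x => by
      beta_reduce
      split_ifs <;> norm_num)
    (by
      intro y x hky hyN hxN hyx hxy
      have h4 := hA (y - k) (by omega) (x + k - y) (by omega)
      have e1 : z + ((y - k : ℕ) : ZMod n) + ((x + k - y : ℕ) : ZMod n) = z + (x : ZMod n) := by
        rw [add_assoc, ← Nat.cast_add]
        congr 2
        omega
      rw [e1] at h4
      have h5 : ∑ u ∈ LQ (fun i j => i = j ∨ z + (j : ZMod n) ∈ M (z + (i : ZMod n))) k N x,
          (if z + (u : ZMod n) ∈ U then (1 : ℝ) else 0) ≤ ((M (z + (x : ZMod n)) ∩ U).card : ℝ) := by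
        rw [Finset.sum_boole]
        have : ((LQ (fun i j => i = j ∨ z + (j : ZMod n) ∈ M (z + (i : ZMod n))) k N x).filter
            (fun u : ℕ => z + (u : ZMod n) ∈ U)).card ≤ (M (z + (x : ZMod n)) ∩ U).card := by
          refine Finset.card_le_card_of_injOn (fun u : ℕ => z + (u : ZMod n)) ?_ ?_
          · intro u hu
            simp only [LQ, Finset.coe_filter, Finset.mem_filter, Set.mem_setOf_eq] at hu
            simp only [Finset.coe_inter, Set.mem_inter_iff, Finset.mem_coe]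
            refine ⟨?_, hu.2⟩
            rcases hu.1.2.2.2 with h | h
            · rw [← h]
              exact hM.refl _
            · exact h
          · intro u hu v hv huv
            simp only [LQ, Finset.coe_filter, Finset.mem_filter, Set.mem_setOf_eq] at hu hv
            exact inj hn z (by omega) (by omega) huv
        exact_mod_cast this
      have h6 : ((win n k (z + ((y - k : ℕ) : ZMod n)) ∩ U).card : ℝ) ≤
          ∑ u ∈ Ico (y - k) y, (if z + (u : ZMod n) ∈ U then (1 : ℝ) else 0) := by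
        rw [Finset.sum_boole]
        have : (win n k (z + ((y - k : ℕ) : ZMod n)) ∩ U).card ≤ ((Ico (y - k) y).filter
            (fun u : ℕ => z + (u : ZMod n) ∈ U)).card := by
          have hsub : win n k (z + ((y - k : ℕ) : ZMod n)) ∩ U ⊆ ((Ico (y - k) y).filter
            (fun u : ℕ => z + (u : ZMod n) ∈ U)).image (fun u : ℕ => z + (u : ZMod n)) := by
            intro v hv
            rw [Finset.mem_inter, win, Finset.mem_image] at hv
            obtain ⟨⟨i, hi, rfl⟩, hv⟩ := hv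
            have hi' := Finset.mem_range.1 hi
            have e2 : z + ((y - k + i : ℕ) : ZMod n) = z + ((y - k : ℕ) : ZMod n) + (i : ZMod n) := by
              rw [Nat.cast_add, add_assoc]
            refine Finset.mem_image.2 ⟨y - k + i, ?_, e2⟩
            rw [Finset.mem_filter, Finset.mem_Ico, e2]
            exact ⟨by omega, hv⟩
          exact (Finset.card_le_card hsub).trans Finset.card_image_le
        exact_mod_cast this
      have ht1 : (0 : ℝ) ≤ (t : ℝ) := Nat.cast_nonneg t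
      calc (t : ℝ) * ∑ u ∈ LQ (fun i j => i = j ∨ z + (j : ZMod n) ∈ M (z + (i : ZMod n))) k N x,
          (if z + (u : ZMod n) ∈ U then (1 : ℝ) else 0)
          ≤ (t : ℝ) * ((M (z + (x : ZMod n)) ∩ U).card : ℝ) :=
            mul_le_mul_of_nonneg_left h5 ht1
        _ ≤ _ := h4.trans h6)
  refine ⟨w, h0, fun K hK => ?_, fun v hv => ?_, fun v hkv hv hvU => ?_⟩
  · have hL := h1 K hK
    have hord : ∀ x ∈ K, ∀ y ∈ K, x ≤ y + k := by
      intro x hx y hy
      rcases lt_trichotomy y x with h | h | h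
      · exact (hL.2.2 y hy x hx h).1
      · omega
      · omega
    have hinj : Set.InjOn (fun i : ℕ => z + (i : ZMod n)) K := fun a ha b hb hab =>
      inj hn z (by have := hord a ha b hb; omega) (by have := hord b hb a ha; omega) hab
    refine ⟨hord, ⟨?_, ?_⟩, ?_⟩
    · rw [Finset.card_image_of_injOn hinj, hL.2.1]
    · intro a ha b hb hab
      obtain ⟨i, hi, rfl⟩ := Finset.mem_image.1 ha
      obtain ⟨j, hj, rfl⟩ := Finset.mem_image.1 hb
      have hij : i ≠ j := fun h => hab (by rw [h])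
      refine ⟨⟨(j : ℤ) - i, ?_, ?_⟩, ?_⟩
      · rw [abs_le]
        have := hord i hi j hj
        have := hord j hj i hi
        omega
      · push_cast
        ring
      · rcases lt_or_gt_of_ne hij with h | h
        · intro hcon
          exact (hL.2.2 i hi j hj h).2 (Or.inr hcon)
        · intro hcon
          exact (hL.2.2 j hj i hi h).2 (Or.inr (hM.symm _ _ hcon))
    · intro a ha
      obtain ⟨i, hi, rfl⟩ := Finset.mem_image.1 ha
      by_contra hcon
      have hiN : i < N := Finset.mem_range.1 (hL.1 hi)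
      have h4 := h2 i hiN
      rw [if_neg hcon] at h4
      have h5 : w K ≤ ∑ K ∈ (range N).powerset, (if i ∈ K then w K else 0) := by
        have h6 := Finset.single_le_sum (f := fun K => if i ∈ K then w K else 0)
          (fun K _ => by
            beta_reduce
            split_ifs
            · exact h0 K
            · exact le_rfl) (Finset.mem_powerset.2 hL.1)
        beta_reduce at h6
        rwa [if_pos hi] at h6
      exact hK (le_antisymm (h5.trans h4) (h0 K))
  · refine (h2 v hv).trans ?_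
    beta_reduce
    split_ifs <;> norm_num
  · have h4 := h3 v hkv hv
    rw [if_pos hvU] at h4
    exact h4

theorem dist (t : ℕ) (hF : T_FRAC t) : T_DIST t := by
  classical
  intro n k m N _ M hM ht hkN U A hA
  have hk := hM.kpos
  have hn := hM.size
  have key : ∀ z : ZMod n, ∃ w : Finset ℕ → ℝ, (∀ K, 0 ≤ w K) ∧
      (∀ K, w K ≠ 0 → (∀ x ∈ K, ∀ y ∈ K, x ≤ y + k) ∧
        IsCl n k M t (K.image fun i : ℕ => z + (i : ZMod n)) ∧
        (K.image fun i : ℕ => z + (i : ZMod n)) ⊆ U) ∧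
      (∀ v < N, ∑ K ∈ (range N).powerset, (if v ∈ K then w K else 0) ≤ 1) ∧
      (z ∈ A → ∀ v, k ≤ v → v < N → z + (v : ZMod n) ∈ U →
        ∑ K ∈ (range N).powerset, (if v ∈ K then w K else 0) = 1) := by
    intro z
    by_cases hz : z ∈ A
    · obtain ⟨w, h1, h2, h3, h4⟩ := one n k m t N hF M hM ht U z (hA z hz)
      exact ⟨w, h1, h2, h3, fun _ => h4⟩
    · exact ⟨fun _ => 0, fun _ => le_rfl, fun K hK => absurd rfl hK, fun v _ => by simp,
        fun h => absurd h hz⟩
  choose w hw0 hw1 hw2 hw3 using key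
  have hN0 : (0 : ℝ) < N := by
    have : 0 < N := by omega
    exact_mod_cast this
  obtain ⟨W, hW⟩ : ∃ W : Finset (ZMod n) → ℝ, ∀ K, W K = (1 / (N : ℝ)) * ∑ z ∈ A,
      ∑ L ∈ (range N).powerset, if L.image (fun i : ℕ => z + (i : ZMod n)) = K then w z L else 0 :=
    ⟨_, fun K => rfl⟩
  have hterm : ∀ (z : ZMod n) (K : Finset (ZMod n)) (L : Finset ℕ),
      0 ≤ if L.image (fun i : ℕ => z + (i : ZMod n)) = K then w z L else 0 := by
    intro z K L
    split_ifs
    · exact hw0 z L
    · exact le_rfl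
  -- the weight of the vertex v in the segment starting at z
  have hseg : ∀ (z v : ZMod n), ∑ L ∈ (range N).powerset,
      (if v ∈ L.image (fun i : ℕ => z + (i : ZMod n)) then w z L else 0) =
      ∑ i ∈ range N, if z + (i : ZMod n) = v then
        (∑ L ∈ (range N).powerset, if i ∈ L then w z L else 0) else 0 := by
    intro z v
    have h1 : ∀ i : ℕ, (if z + (i : ZMod n) = v then
        (∑ L ∈ (range N).powerset, if i ∈ L then w z L else 0) else 0) =
        ∑ L ∈ (range N).powerset, if (z + (i : ZMod n) = v ∧ i ∈ L) then w z L else 0 := by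
      intro i
      by_cases h : z + (i : ZMod n) = v
      · simp [h]
      · simp [h]
    rw [Finset.sum_congr rfl fun i _ => h1 i, Finset.sum_comm]
    refine Finset.sum_congr rfl fun L hL => ?_
    by_cases hwL : w z L = 0
    · simp [hwL]
    obtain ⟨hord, -, -⟩ := hw1 z L hwL
    by_cases hv : v ∈ L.image (fun i : ℕ => z + (i : ZMod n))
    · rw [if_pos hv]
      obtain ⟨i, hi, hiv⟩ := Finset.mem_image.1 hv
      rw [Finset.sum_eq_single i]
      · rw [if_pos ⟨hiv, hi⟩]
      · intro j _ hji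
        rw [if_neg]
        rintro ⟨h2, h3⟩
        exact hji (DistL.inj hn z (by have := hord j h3 i hi; omega) (by have := hord i hi j h3; omega)
          (h2.trans hiv.symm))
      · intro h
        exact absurd (Finset.mem_powerset.1 hL hi) h
    · rw [if_neg hv]
      refine (Finset.sum_eq_zero fun i _ => ?_).symm
      rw [if_neg]
      rintro ⟨h2, h3⟩
      exact hv (Finset.mem_image.2 ⟨i, h3, h2⟩)
  have htot : ∀ v, ∑ K, (if v ∈ K then W K else 0) = (1 / (N : ℝ)) * ∑ z ∈ A,
      ∑ i ∈ range N, if z + (i : ZMod n) = v then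
        (∑ L ∈ (range N).powerset, if i ∈ L then w z L else 0) else 0 := by
    intro v
    have h1 : ∀ K : Finset (ZMod n), (if v ∈ K then W K else 0) = (1 / (N : ℝ)) * ∑ z ∈ A,
        ∑ L ∈ (range N).powerset, if L.image (fun i : ℕ => z + (i : ZMod n)) = K then
          (if v ∈ L.image (fun i : ℕ => z + (i : ZMod n)) then w z L else 0) else 0 := by
      intro K
      by_cases h : v ∈ K
      · rw [if_pos h, hW K]
        congr 1
        refine Finset.sum_congr rfl fun z _ => Finset.sum_congr rfl fun L _ => ?_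
        by_cases hL : L.image (fun i : ℕ => z + (i : ZMod n)) = K
        · rw [if_pos hL, if_pos hL, if_pos (by rw [hL]; exact h)]
        · rw [if_neg hL, if_neg hL]
      · rw [if_neg h]
        symm
        rw [mul_eq_zero]
        right
        refine Finset.sum_eq_zero fun z _ => Finset.sum_eq_zero fun L _ => ?_
        by_cases hL : L.image (fun i : ℕ => z + (i : ZMod n)) = K
        · rw [if_pos hL, if_neg (by rw [hL]; exact h)]
        · rw [if_neg hL]
    rw [Finset.sum_congr rfl fun K _ => h1 K, ← Finset.mul_sum, Finset.sum_comm]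
    congr 1
    refine Finset.sum_congr rfl fun z _ => ?_
    rw [Finset.sum_comm, ← hseg z v]
    refine Finset.sum_congr rfl fun L _ => ?_
    rw [Finset.sum_ite_eq, if_pos (Finset.mem_univ _)]
  have hswap : ∀ (v : ZMod n) (g : ZMod n → ℕ → ℝ) (I : Finset ℕ),
      ∑ z ∈ A, ∑ i ∈ I, (if z + (i : ZMod n) = v then g z i else 0) =
      ∑ i ∈ I.filter (fun i : ℕ => v - (i : ZMod n) ∈ A), g (v - (i : ZMod n)) i := by
    intro v g I
    rw [Finset.sum_comm, Finset.sum_filter]
    refine Finset.sum_congr rfl fun i _ => ?_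
    have h1 : ∀ z : ZMod n, (if z + (i : ZMod n) = v then g z i else 0) =
        if z = v - (i : ZMod n) then g z i else 0 := by
      intro z
      by_cases h : z = v - (i : ZMod n)
      · rw [if_pos h, if_pos (by rw [h]; ring)]
      · rw [if_neg h, if_neg (fun h2 => h (by rw [← h2]; ring))]
    rw [Finset.sum_congr rfl fun z _ => h1 z, Finset.sum_ite_eq']
  refine ⟨W, fun K => ?_, fun K hK => ?_, fun v hv => ?_⟩
  · rw [hW]
    exact mul_nonneg (by positivity) (Finset.sum_nonneg fun z _ => Finset.sum_nonneg fun L _ =>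
      hterm z K L)
  · have h1 : ∃ z ∈ A, ∃ L ∈ (range N).powerset,
        (if L.image (fun i : ℕ => z + (i : ZMod n)) = K then w z L else 0) ≠ 0 := by
      by_contra hcon
      push Not at hcon
      apply hK
      rw [hW, Finset.sum_eq_zero fun z hz => Finset.sum_eq_zero fun L hL => hcon z hz L hL, mul_zero]
    obtain ⟨z, hz, L, hL, h2⟩ := h1
    have h3 : L.image (fun i : ℕ => z + (i : ZMod n)) = K := by
      by_contra h
      exact h2 (if_neg h)
    rw [if_pos h3] at h2
    obtain ⟨-, h4, h5⟩ := hw1 z L h2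
    rw [h3] at h4 h5
    exact ⟨h4, h5⟩
  · rw [htot v]
    have hsplit : ∀ z : ZMod n, (∑ i ∈ range N, if z + (i : ZMod n) = v then
        (∑ L ∈ (range N).powerset, if i ∈ L then w z L else 0) else 0) =
        (∑ i ∈ range k, if z + (i : ZMod n) = v then
          (∑ L ∈ (range N).powerset, if i ∈ L then w z L else 0) else 0) +
        ∑ i ∈ Ico k N, if z + (i : ZMod n) = v then
          (∑ L ∈ (range N).powerset, if i ∈ L then w z L else 0) else 0 := by
      intro z
      rw [Finset.sum_range_add_sum_Ico _ hkN]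
    rw [Finset.sum_congr rfl fun z _ => hsplit z, Finset.sum_add_distrib, hswap v _ (range k),
      hswap v _ (Ico k N)]
    have hI : ∑ i ∈ (Ico k N).filter (fun i : ℕ => v - (i : ZMod n) ∈ A),
        (∑ L ∈ (range N).powerset, if i ∈ L then w (v - (i : ZMod n)) L else 0) =
        (((Ico k N).filter (fun i : ℕ => v - (i : ZMod n) ∈ A)).card : ℝ) := by
      rw [Finset.card_eq_sum_ones, Nat.cast_sum]
      refine Finset.sum_congr rfl fun i hi => ?_
      rw [Finset.mem_filter, Finset.mem_Ico] at hi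
      rw [hw3 _ hi.2 i hi.1.1 hi.1.2 (by
        rw [sub_add_cancel]
        exact hv)]
      simp
    have hE : ∑ i ∈ (range k).filter (fun i : ℕ => v - (i : ZMod n) ∈ A),
        (∑ L ∈ (range N).powerset, if i ∈ L then w (v - (i : ZMod n)) L else 0) ≤
        (((range k).filter (fun i : ℕ => v - (i : ZMod n) ∈ A)).card : ℝ) := by
      rw [Finset.card_eq_sum_ones, Nat.cast_sum]
      refine Finset.sum_le_sum fun i hi => ?_
      rw [Finset.mem_filter, Finset.mem_range] at hi
      simpa using hw2 (v - (i : ZMod n)) i (by omega)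
    have hE0 : 0 ≤ ∑ i ∈ (range k).filter (fun i : ℕ => v - (i : ZMod n) ∈ A),
        (∑ L ∈ (range N).powerset, if i ∈ L then w (v - (i : ZMod n)) L else 0) :=
      Finset.sum_nonneg fun i _ => Finset.sum_nonneg fun L _ => by
        split_ifs
        · exact hw0 _ L
        · exact le_rfl
    rw [hI]
    unfold rate err
    have hN1 : (0 : ℝ) ≤ 1 / (N : ℝ) := by positivity
    generalize (∑ i ∈ (range k).filter (fun i : ℕ => v - (i : ZMod n) ∈ A),
        (∑ L ∈ (range N).powerset, if i ∈ L then w (v - (i : ZMod n)) L else 0)) = X at hE hE0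
    generalize (((Ico k N).filter (fun i : ℕ => v - (i : ZMod n) ∈ A)).card : ℝ) = R
    generalize (((range k).filter (fun i : ℕ => v - (i : ZMod n) ∈ A)).card : ℝ) = Y at hE
    constructor
    · calc R / N = 1 / (N : ℝ) * R := by ring
        _ ≤ _ := mul_le_mul_of_nonneg_left (by linarith) hN1
    · calc 1 / (N : ℝ) * (X + R) ≤ 1 / (N : ℝ) * (R + Y) :=
            mul_le_mul_of_nonneg_left (by linarith) hN1
        _ = R / N + Y / N := by ring

open ArcL in
open Classical in
theorem arc1 (t : ℕ) (h1 : S_POT) (h2 : T_DIST t) (h3 : S_BAL) : T_ARC1 t := by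
  intro ε ht hε hε1
  obtain ⟨β, hβ0, hβ4, hbal⟩ := h3 (t + 1) ε (by omega) hε hε1
  have et : (((t + 1 : ℕ) : ℝ) - 1) = t := by push_cast; ring
  simp only [et] at hbal
  refine ⟨β, hβ0, hβ4, fun τ γ hτ hγ hγβ => ?_⟩
  have htr : (2 : ℝ) ≤ t := by exact_mod_cast ht
  obtain ⟨d, hd⟩ : ∃ d : ℝ, d = Real.exp (-(τ + 1)) := ⟨_, rfl⟩
  have hd0 : 0 < d := by rw [hd]; exact Real.exp_pos _
  have hd1 : d ≤ 1 := by rw [hd]; exact Real.exp_le_one_iff.2 (by linarith)
  obtain ⟨κ, hκ⟩ : ∃ κ : ℝ, κ = 3 * d / (8 * t) := ⟨_, rfl⟩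
  have hκ0 : 0 < κ := by rw [hκ]; positivity
  obtain ⟨η, hη0, hη1, hpot⟩ := h1 t d τ γ κ (by omega) hd0 hd1 hτ hγ hκ0
  obtain ⟨M₀, hM₀⟩ : ∃ M₀ : ℕ, M₀ = max 3 (max ⌈1 / η⌉₊ ⌈2 * (τ + 1) / β⌉₊) := ⟨_, rfl⟩
  have hM3 : 3 ≤ M₀ := by rw [hM₀]; exact le_max_left _ _
  have hM3r : (3 : ℝ) ≤ M₀ := by exact_mod_cast hM3
  have hMη : 1 ≤ M₀ * η := by
    have h5 : ⌈1 / η⌉₊ ≤ M₀ := by rw [hM₀]; exact le_trans (le_max_left _ _) (le_max_right _ _)
    have h6 : 1 / η ≤ M₀ := (Nat.le_ceil _).trans (by exact_mod_cast h5)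
    rwa [div_le_iff₀ hη0] at h6
  have hMβ : 2 * (τ + 1) ≤ M₀ * β := by
    have h5 : ⌈2 * (τ + 1) / β⌉₊ ≤ M₀ := by rw [hM₀]; exact le_trans (le_max_right _ _) (le_max_right _ _)
    have h6 : 2 * (τ + 1) / β ≤ M₀ := (Nat.le_ceil _).trans (by exact_mod_cast h5)
    rwa [div_le_iff₀ hβ0] at h6
  obtain ⟨k₀, hk₀⟩ := hpot (8 * M₀)
  refine ⟨M₀, k₀, hM3, ?_⟩
  intro n k m _ M hM hk hs Ar hAr U D hD hslow hSt
  have hk1 := hM.kpos
  have hkr : (0 : ℝ) < k := by exact_mod_cast hk1
  obtain ⟨N, hN⟩ : ∃ N : ℕ, N = M₀ * k := ⟨_, rfl⟩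
  rw [← hN] at hAr hD hslow ⊢
  have hN3 : 3 * k ≤ N := by rw [hN]; exact Nat.mul_le_mul_right k hM3
  have hkN : k ≤ N := by omega
  have hNr : (N : ℝ) = M₀ * k := by rw [hN]; push_cast; rfl
  have hNpos : (0 : ℝ) < N := by exact_mod_cast (by omega : 0 < N)
  -- the tests
  obtain ⟨X, hX⟩ : ∃ X : Finset (ZMod n), X = univ.filter (fun x => ∃ v ∈ M x, Tou n N Ar v) := ⟨_, rfl⟩
  obtain ⟨Z, hZ⟩ : ∃ Z : Finset (ZMod n), Z = univ.filter (fun y => ∃ v ∈ win n k y, Tou n N Ar v) := ⟨_, rfl⟩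
  obtain ⟨T, hT⟩ : ∃ T : Finset (Finset (ZMod n)), T = X.image M ∪ Z.image (win n k) := ⟨_, rfl⟩
  have hTM : ∀ x, M x ∉ T → ∀ v ∈ M x, ¬ Tou n N Ar v := by
    intro x hx v hv hvt
    apply hx
    rw [hT, mem_union]
    exact Or.inl (mem_image_of_mem _ (by rw [hX, mem_filter]; exact ⟨mem_univ _, v, hv, hvt⟩))
  have hTW : ∀ y, win n k y ∉ T → ∀ v ∈ win n k y, ¬ Tou n N Ar v := by
    intro x hx v hv hvt
    apply hx
    rw [hT, mem_union]
    exact Or.inr (mem_image_of_mem _ (by rw [hZ, mem_filter]; exact ⟨mem_univ _, v, hv, hvt⟩))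
  have hTcard : (T.card : ℝ) ≤ 8 * M₀ * k := by
    have h5 := few hM hN3 Ar hAr X Z (fun x hx => by rw [hX, mem_filter] at hx; exact hx.2)
      (fun y hy => by rw [hZ, mem_filter] at hy; exact hy.2)
    have h6 : T.card ≤ X.card + Z.card := by
      rw [hT]
      exact (card_union_le _ _).trans (add_le_add card_image_le card_image_le)
    have h7 : (T.card : ℝ) ≤ 8 * N := by exact_mod_cast h6.trans h5
    rw [hNr] at h7
    linarith
  have hTS : ∀ S ∈ T, (S.card : ℝ) ≤ 3 * k := by
    intro S hS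
    rw [hT, mem_union, mem_image, mem_image] at hS
    rcases hS with ⟨x, _, rfl⟩ | ⟨y, _, rfl⟩
    · have h5 := hM.card x
      have h6 := slack_le (t := t) (k := k) (m := m) ht hε (less t m ht hs)
      exact_mod_cast (by omega : (M x).card ≤ 3 * k)
    · have h5 := card_win_le (k := k) y
      exact_mod_cast (by omega : (win n k y).card ≤ 3 * k)
  have herr : ∀ v, err n k N Ar v ≤ η := by
    intro v
    refine (err_le Ar v).trans ?_
    rw [div_le_iff₀ hNpos, hNr]
    nlinarith
  -- all tests are controlled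
  have hctl : ∀ (U' : Finset (ZMod n)) (σ : ℝ),
      (∀ S ∈ T, |Y S U' (fun v => D v * Real.exp (-(σ * rate n k N Ar v))) - Y S U D| ≤ γ * k) →
      (∀ v, ¬ Tou n N Ar v → (v ∈ U' ↔ v ∈ U)) →
      (∀ x, |Y (M x) U' (fun v => D v * Real.exp (-(σ * rate n k N Ar v))) - Y (M x) U D| ≤ γ * k) ∧
      ∀ y, |Y (win n k y) U' (fun v => D v * Real.exp (-(σ * rate n k N Ar v))) - Y (win n k y) U D| ≤ γ * k := by
    intro U' σ hte hun
    constructor
    · intro x
      by_cases hx : M x ∈ T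
      · exact hte _ hx
      · rw [untouched Ar (M x) U U' D σ (hTM x hx) hun, sub_self, abs_zero]; positivity
    · intro y
      by_cases hy : win n k y ∈ T
      · exact hte _ hy
      · rw [untouched Ar (win n k y) U U' D σ (hTW y hy) hun, sub_self, abs_zero]; positivity
  obtain ⟨σ, F, hσ1, hσ2, hF1, hF2, hF3, hF4⟩ := hk₀ k hk (ZMod n) T (rate n k N Ar) (err n k N Ar) D U
    (IsCl n k M t) hTcard hTS (fun v => ⟨rate_nonneg Ar v, rate_le_one hkN Ar v⟩)
    (fun v => ⟨err_nonneg Ar v, herr v⟩) (fun v σ h5 h6 => by rw [hd]; exact hD v σ h5 h6) (fun K hK => hK.1)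
    (by
      intro U' σ hU' hσ0 hστ hte hun
      have hun' : ∀ v, ¬ Tou n N Ar v → (v ∈ U' ↔ v ∈ U) := by
        intro v hv
        apply hun v
        rw [rate_eq_zero fun i hi hA => hv ⟨i, hi, hA⟩, err_eq_zero hkN fun i hi hA => hv ⟨i, hi, hA⟩, add_zero]
      obtain ⟨hc1, hc2⟩ := hctl U' σ hte hun'
      have hgpos : ∀ v, 0 < D v * Real.exp (-(σ * rate n k N Ar v)) := by
        intro v
        have := (hD v σ hσ0 (by linarith)).1
        have h5 := Real.exp_pos (-(τ + 1))
        linarith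
      have hst : St n k M (β * k) U' (fun v => D v * Real.exp (-(σ * rate n k N Ar v))) := by
        constructor
        · intro x
          have h5 := (abs_le.1 (hc1 x)).2
          have h6 := hSt.1 x
          have h7 : (β - γ) * k + γ * k = β * k := by ring
          linarith
        · intro y
          have h5 := hc2 y
          have h6 := hSt.2 y
          have h7 : (β - γ) * k + γ * k = β * k := by ring
          have h8 := abs_add_le (Y (win n k y) U' (fun v => D v * Real.exp (-(σ * rate n k N Ar v))) - Y (win n k y) U D)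
            (Y (win n k y) U D - k)
          rw [sub_add_sub_cancel] at h8
          linarith
      have hθk : 2 * (τ + 1) / (N : ℝ) * k ≤ β := by
        rw [div_mul_eq_mul_div, div_le_iff₀ hNpos, hNr]
        nlinarith
      have hb := hbal n k m M hM hs U' _ (2 * (τ + 1) / (N : ℝ)) hgpos (by positivity) hθk
        (hslow σ hσ0 (by linarith)) hst
      obtain ⟨w, hw1, hw2, hw3⟩ := h2 n k m N M hM ht hkN U' Ar (fun z _ j _ i hi => hb _ i hi)
      refine ⟨w, hw1, hw2, hw3, ?_⟩
      -- the total weight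
      obtain ⟨y, hy⟩ := big_rate hk1 hN3 Ar hAr
      have e1 : ∑ v, ∑ K, (if v ∈ K then w K else 0) = t * ∑ K, w K := by
        rw [sum_comm, mul_sum]
        refine sum_congr rfl fun K _ => ?_
        rw [← sum_filter, sum_const, nsmul_eq_mul, filter_mem_eq_inter, univ_inter]
        by_cases hK : w K = 0
        · rw [hK]; ring
        · rw [(hw2 K hK).1.1]
      have e2 : ∑ v ∈ win n k y ∩ U', (1 : ℝ) / 2 ≤ ∑ v, ∑ K, (if v ∈ K then w K else 0) := by
        calc ∑ v ∈ win n k y ∩ U', (1 : ℝ) / 2 ≤ ∑ v ∈ win n k y ∩ U', ∑ K, (if v ∈ K then w K else 0) := by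
              refine sum_le_sum fun v hv => ?_
              rw [mem_inter] at hv
              exact (hy v hv.1).trans (hw3 v hv.2).1
          _ ≤ ∑ v, ∑ K, (if v ∈ K then w K else 0) := by
              apply sum_le_sum_of_subset_of_nonneg (subset_univ _)
              intro v _ _
              refine sum_nonneg fun K _ => ?_
              split_ifs
              · exact hw1 K
              · exact le_rfl
      rw [sum_const, nsmul_eq_mul] at e2
      have e3 : d * Y (win n k y) U' (fun v => D v * Real.exp (-(σ * rate n k N Ar v))) ≤ (win n k y ∩ U').card := by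
        unfold Y
        rw [mul_sum, card_eq_sum_ones, Nat.cast_sum]
        refine sum_le_sum fun v _ => ?_
        rw [Nat.cast_one, ← div_eq_mul_inv, div_le_one (hgpos v), hd]
        exact (hD v σ hσ0 (by linarith)).1
      have e4 : (3 / 4) * k ≤ Y (win n k y) U' (fun v => D v * Real.exp (-(σ * rate n k N Ar v))) := by
        have h5 := (abs_le.1 (hst.2 y)).1
        have h6 : β * k ≤ 1 / 4 * k := mul_le_mul_of_nonneg_right hβ4 hkr.le
        linarith
      have e5 : d * ((3 / 4) * k) ≤ d * Y (win n k y) U' (fun v => D v * Real.exp (-(σ * rate n k N Ar v))) :=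
        mul_le_mul_of_nonneg_left e4 hd0.le
      rw [e1] at e2
      have e6 : (3 * d / 8) * k ≤ t * ∑ K, w K := by linarith
      have e7 : t * (κ * k) ≤ t * ∑ K, w K := by
        have : t * (κ * k) = (3 * d / 8) * k := by rw [hκ]; field_simp
        rw [this]; exact e6
      exact le_of_mul_le_mul_left e7 (by linarith))
  have hun : ∀ v, ¬ Tou n N Ar v → (v ∈ U \ F.biUnion id ↔ v ∈ U) := by
    intro v hv
    rw [mem_sdiff]
    constructor
    · exact fun h => h.1
    · intro h
      refine ⟨h, fun hvF => ?_⟩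
      obtain ⟨K, hK, hvK⟩ := mem_biUnion.1 hvF
      exact hv (touched_of_pos hkN (hF3 K hK v hvK))
  obtain ⟨hc1, hc2⟩ := hctl _ σ hF4 hun
  exact ⟨σ, F, hσ1, hσ2, hF1, hF2, fun K hK v hv => touched_of_pos hkN (hF3 K hK v hv), hc1, hc2⟩

open AlmL in
theorem alm (t : ℕ) (h1 : T_ARC1 t) (h2 : S_PART) (h3 : S_RATE) : T_ALM t := by
  classical
  intro ε ht hε hε1
  obtain ⟨β, hβ, hβ4, hA⟩ := h1 ε ht hε hε1
  refine ⟨β / 10, by positivity, ?_⟩
  intro δ hδ
  obtain ⟨τ, hτ, hτδ⟩ := exists_tau hδ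
  obtain ⟨M₀, k₁, hM0, hA⟩ := hA τ (β / 10) hτ (by positivity) (by linarith)
  refine ⟨k₁, ?_⟩
  intro n k m _ M hM hk hsl B hB
  have hkpos := hM.kpos
  have hkR : (0 : ℝ) < k := by exact_mod_cast hkpos
  obtain ⟨N, hN⟩ : ∃ N, N = M₀ * k := ⟨_, rfl⟩
  have hN3 : 3 * k ≤ N := by rw [hN]; exact Nat.mul_le_mul_right k hM0
  have hNR : (0 : ℝ) < N := by
    have : 0 < N := by omega
    exact_mod_cast this
  have hN3R : 3 * (k : ℝ) ≤ N := by exact_mod_cast hN3
  obtain ⟨J, Ar, hAr, hcov, hdis, h4⟩ := h2 n k N hkpos hM.size hN3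
  obtain ⟨hsum, hvar⟩ := h3 n k N hkpos (by omega) J Ar hcov hdis
  have hkn : k ≤ n := by have := hM.size; omega
  -- the number of arcs touching a test
  have htch : ∀ S, Test n k M S → ∀ j ≤ J,
      ∑ i ∈ range j, (if Tch n N (Ar i) S then (1 : ℝ) else 0) ≤ 4 := by
    intro S hS j hj
    obtain ⟨y, hy⟩ := exists_base hM hS
    have e : ∑ i ∈ range j, (if Tch n N (Ar i) S then (1 : ℝ) else 0) ≤
        ((range J).filter (fun j => ∃ i : ℕ, i ≤ N + 3 * k ∧ y - (i : ZMod n) ∈ Ar j)).card := by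
      rw [Finset.sum_boole]
      have hsub : (range j).filter (fun i => Tch n N (Ar i) S) ⊆
          (range J).filter (fun j => ∃ i : ℕ, i ≤ N + 3 * k ∧ y - (i : ZMod n) ∈ Ar j) := by
        intro i hi
        rw [mem_filter, mem_range] at hi ⊢
        obtain ⟨hi1, v, hv, s, hs, hvs⟩ := hi
        obtain ⟨a, ha, rfl⟩ := hy v hv
        refine ⟨by omega, a + s, by omega, ?_⟩
        have : y - ((a + s : ℕ) : ZMod n) = y - (a : ZMod n) - (s : ZMod n) := by push_cast; ring
        rw [this]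
        exact hvs
      exact_mod_cast card_le_card hsub
    have h5 := h4 y
    have h6 : (((range J).filter (fun j => ∃ i : ℕ, i ≤ N + 3 * k ∧
        y - (i : ZMod n) ∈ Ar j)).card : ℝ) ≤ 4 := by exact_mod_cast h5
    linarith
  -- start
  have hY0 : ∀ S : Finset (ZMod n), Y S Bᶜ (fun _ => (1 : ℝ)) = ((S ∩ Bᶜ).card : ℝ) := by
    intro S
    unfold Y
    simp
  have hst1 : ∀ x, Y (M x) Bᶜ (fun _ => (1 : ℝ)) ≤ (M x).card := by
    intro x
    rw [hY0]
    exact_mod_cast card_le_card inter_subset_left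
  have hst2 : ∀ y, |Y (win n k y) Bᶜ (fun _ => (1 : ℝ)) - k| ≤ β / 10 * k := by
    intro y
    rw [hY0]
    have e1 : (win n k y ∩ Bᶜ).card + (B ∩ win n k y).card = k := by
      have := card_win hkn y
      have h7 := Finset.card_inter_add_card_sdiff (win n k y) B
      rw [inter_comm B, ← sdiff_eq_inter_compl]
      omega
    have e2 : ((win n k y ∩ Bᶜ).card : ℝ) - k = -((B ∩ win n k y).card : ℝ) := by
      have : ((win n k y ∩ Bᶜ).card : ℝ) + (B ∩ win n k y).card = k := by exact_mod_cast e1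
      linarith
    rw [e2, abs_neg, abs_of_nonneg (by positivity)]
    exact hB y
  -- the state is good
  have hgood : ∀ j ≤ J, ∀ (U : Finset (ZMod n)) (D : ZMod n → ℝ),
      (∀ S, Test n k M S → |Y S U D - Y S Bᶜ (fun _ => (1 : ℝ))| ≤
        β / 10 * k * ∑ i ∈ range j, (if Tch n N (Ar i) S then (1 : ℝ) else 0)) →
      St n k M ((β - β / 10) * k) U D ∧ ∀ y, Y (win n k y) U D ≤ 2 * k := by
    intro j hj U D hUD
    have hb : ∀ S, Test n k M S → |Y S U D - Y S Bᶜ (fun _ => (1 : ℝ))| ≤ β / 10 * k * 4 := by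
      intro S hS
      refine (hUD S hS).trans ?_
      exact mul_le_mul_of_nonneg_left (htch S hS j hj) (by positivity)
    have hβk : 0 < β * k := by positivity
    refine ⟨⟨?_, ?_⟩, ?_⟩
    · intro x
      have h5 := abs_le.1 (hb (M x) (Or.inl ⟨x, rfl⟩))
      have h6 := hst1 x
      nlinarith
    · intro y
      have h5 := abs_le.1 (hb (win n k y) (Or.inr ⟨y, rfl⟩))
      have h6 := abs_le.1 (hst2 y)
      rw [abs_le]
      constructor <;> nlinarith
    · intro y
      have h5 := abs_le.1 (hb (win n k y) (Or.inr ⟨y, rfl⟩))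
      have h6 := abs_le.1 (hst2 y)
      nlinarith
  -- partial sums of rates
  have hpart : ∀ j ≤ J, ∀ v, ∑ i ∈ range j, rate n k N (Ar i) v ≤ 1 := by
    intro j hj v
    have h5 : ∑ i ∈ range j, rate n k N (Ar i) v ≤ ∑ i ∈ range J, rate n k N (Ar i) v :=
      sum_le_sum_of_subset_of_nonneg (range_mono hj) (fun i _ _ => AlmL.rate_nonneg _ _ _ _ _)
    rw [hsum v] at h5
    refine h5.trans ?_
    rw [div_le_one hNR]
    linarith
  have hpartv : ∀ j ≤ J, ∀ v, ∑ i ∈ range j,
      |rate n k N (Ar i) (v + 1) - rate n k N (Ar i) v| ≤ 2 / N := by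
    intro j hj v
    exact (sum_le_sum_of_subset_of_nonneg (range_mono hj) (fun i _ _ => abs_nonneg _)).trans
      (hvar v)
  -- induction
  have claim : ∀ j ≤ J, ∃ (σ : ℕ → ℝ) (F : Finset (Finset (ZMod n))),
      (∀ i, i < j → τ ≤ σ i ∧ σ i ≤ τ + 1) ∧
      (∀ K ∈ F, IsCl n k M t K ∧ Disjoint K B) ∧
      (∀ K ∈ F, ∀ L ∈ F, K ≠ L → Disjoint K L) ∧
      ∀ S, Test n k M S → |Y S ((B ∪ F.biUnion id)ᶜ) (Dj n k N Ar σ j) -
        Y S Bᶜ (fun _ => (1 : ℝ))| ≤
        β / 10 * k * ∑ i ∈ range j, (if Tch n N (Ar i) S then (1 : ℝ) else 0) := by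
    intro j
    induction j with
    | zero =>
      intro _
      refine ⟨fun _ => 0, ∅, fun i hi => absurd hi (by omega), by simp, by simp, ?_⟩
      intro S hS
      have e1 : Dj n k N Ar (fun _ => 0) 0 = fun _ => (1 : ℝ) := by
        funext v
        simp [Dj]
      rw [e1]
      simp
    | succ j ih =>
      intro hj
      obtain ⟨σ, F, hσ, hF1, hF2, hF3⟩ := ih (by omega)
      set U := (B ∪ F.biUnion id)ᶜ with hU
      set D := Dj n k N Ar σ j with hD
      have hDv : ∀ v (s : ℝ), D v * Real.exp (-(s * rate n k N (Ar j) v)) =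
          Real.exp (-(∑ i ∈ range (j + 1), Function.update σ j s i * rate n k N (Ar i) v)) := by
        intro v s
        rw [hD]
        unfold Dj
        rw [← Real.exp_add, sum_range_succ, Function.update_self]
        congr 1
        have : ∑ i ∈ range j, Function.update σ j s i * rate n k N (Ar i) v =
            ∑ i ∈ range j, σ i * rate n k N (Ar i) v := by
          apply sum_congr rfl
          intro i hi
          rw [Function.update_of_ne (by have := mem_range.1 hi; omega)]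
        rw [this]
        ring
      have hσ' : ∀ s : ℝ, 0 ≤ s → s ≤ τ + 1 → ∀ i, i < j + 1 →
          0 ≤ Function.update σ j s i ∧ Function.update σ j s i ≤ τ + 1 := by
        intro s hs0 hs1 i hi
        by_cases hij : i = j
        · subst hij
          rw [Function.update_self]
          exact ⟨hs0, hs1⟩
        · rw [Function.update_of_ne hij]
          have := hσ i (by omega)
          exact ⟨by linarith, this.2⟩
      have hE0 : ∀ s : ℝ, 0 ≤ s → s ≤ τ + 1 → ∀ v,
          0 ≤ ∑ i ∈ range (j + 1), Function.update σ j s i * rate n k N (Ar i) v ∧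
          ∑ i ∈ range (j + 1), Function.update σ j s i * rate n k N (Ar i) v ≤ τ + 1 := by
        intro s hs0 hs1 v
        constructor
        · apply sum_nonneg
          intro i hi
          exact mul_nonneg (hσ' s hs0 hs1 i (mem_range.1 hi)).1 (AlmL.rate_nonneg _ _ _ _ _)
        · have h5 : ∑ i ∈ range (j + 1), Function.update σ j s i * rate n k N (Ar i) v ≤
              ∑ i ∈ range (j + 1), (τ + 1) * rate n k N (Ar i) v := by
            apply sum_le_sum
            intro i hi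
            exact mul_le_mul_of_nonneg_right (hσ' s hs0 hs1 i (mem_range.1 hi)).2
              (AlmL.rate_nonneg _ _ _ _ _)
          rw [← mul_sum] at h5
          have h6 := hpart (j + 1) hj v
          nlinarith
      have hE1 : ∀ s : ℝ, 0 ≤ s → s ≤ τ + 1 → ∀ v,
          |∑ i ∈ range (j + 1), Function.update σ j s i * rate n k N (Ar i) (v + 1) -
          ∑ i ∈ range (j + 1), Function.update σ j s i * rate n k N (Ar i) v| ≤
            2 * (τ + 1) / N := by
        intro s hs0 hs1 v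
        rw [← sum_sub_distrib]
        refine (abs_sum_le_sum_abs _ _).trans ?_
        have h5 : ∑ i ∈ range (j + 1), |Function.update σ j s i * rate n k N (Ar i) (v + 1) -
            Function.update σ j s i * rate n k N (Ar i) v| ≤
            ∑ i ∈ range (j + 1), (τ + 1) * |rate n k N (Ar i) (v + 1) - rate n k N (Ar i) v| := by
          apply sum_le_sum
          intro i hi
          have h6 := hσ' s hs0 hs1 i (mem_range.1 hi)
          rw [← mul_sub, abs_mul, abs_of_nonneg h6.1]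
          exact mul_le_mul_of_nonneg_right h6.2 (abs_nonneg _)
        rw [← mul_sum] at h5
        refine h5.trans ?_
        have h7 := mul_le_mul_of_nonneg_left (hpartv (j + 1) hj v) (by linarith : 0 ≤ τ + 1)
        refine h7.trans (le_of_eq ?_)
        ring
      have hc1 : ∀ v, ∀ s : ℝ, 0 ≤ s → s ≤ τ + 1 →
          Real.exp (-(τ + 1)) ≤ D v * Real.exp (-(s * rate n k (M₀ * k) (Ar j) v)) ∧
          D v * Real.exp (-(s * rate n k (M₀ * k) (Ar j) v)) ≤ 1 := by
        intro v s hs0 hs1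
        rw [← hN, hDv v s]
        have := hE0 s hs0 hs1 v
        constructor
        · apply Real.exp_le_exp.2
          linarith
        · rw [Real.exp_le_one_iff]
          linarith
      have hc2 : ∀ s : ℝ, 0 ≤ s → s ≤ τ + 1 → Slow n (2 * (τ + 1) / (M₀ * k : ℕ))
          (fun v => D v * Real.exp (-(s * rate n k (M₀ * k) (Ar j) v))) := by
        intro s hs0 hs1 v
        simp only
        rw [← hN, hDv v s, hDv (v + 1) s, ← Real.exp_add, ← Real.exp_add]
        have := abs_le.1 (hE1 s hs0 hs1 v)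
        constructor
        · apply Real.exp_le_exp.2
          linarith
        · apply Real.exp_le_exp.2
          linarith
      have hArj : Arc n (M₀ * k) (Ar j) := by rw [← hN]; exact hAr j (by omega)
      obtain ⟨s, G, hs0, hs1, hG1, hG2, hG3, hG4, hG5⟩ := hA n k m M hM hk hsl (Ar j) hArj U D
        hc1 hc2 (hgood j (by omega) U D hF3).1
      rw [← hN] at hG3 hG4 hG5
      have hGU : G.biUnion id ⊆ U := by
        rw [biUnion_subset]
        intro K hK
        exact (hG1 K hK).2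
      have hU' : (B ∪ (F ∪ G).biUnion id)ᶜ = U \ G.biUnion id := by
        rw [hU, union_biUnion, ← union_assoc, compl_union, sdiff_eq_inter_compl]
      have hD' : Dj n k N Ar (Function.update σ j s) (j + 1) =
          fun v => D v * Real.exp (-(s * rate n k N (Ar j) v)) := by
        funext v
        rw [hDv v s]
        rfl
      refine ⟨Function.update σ j s, F ∪ G, ?_, ?_, ?_, ?_⟩
      · intro i hi
        by_cases hij : i = j
        · subst hij
          rw [Function.update_self]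
          exact ⟨hs0, hs1⟩
        · rw [Function.update_of_ne hij]
          exact hσ i (by omega)
      · intro K hK
        rcases mem_union.1 hK with hK | hK
        · exact hF1 K hK
        · refine ⟨(hG1 K hK).1, ?_⟩
          rw [disjoint_left]
          intro v hv hvB
          have := (hG1 K hK).2 hv
          rw [hU, mem_compl, mem_union] at this
          exact this (Or.inl hvB)
      · have hcross : ∀ K ∈ F, ∀ L ∈ G, Disjoint K L := by
          intro K hK L hL
          rw [disjoint_left]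
          intro v hv hvL
          have := (hG1 L hL).2 hvL
          rw [hU, mem_compl, mem_union] at this
          exact this (Or.inr (mem_biUnion.2 ⟨K, hK, hv⟩))
        intro K hK L hL hKL
        rcases mem_union.1 hK with hK | hK <;> rcases mem_union.1 hL with hL | hL
        · exact hF2 K hK L hL hKL
        · exact hcross K hK L hL
        · exact (hcross L hL K hK).symm
        · exact hG2 K hK L hL hKL
      · intro S hS
        rw [hU', hD', sum_range_succ]
        have h5 := hF3 S hS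
        have h6 : |Y S (U \ G.biUnion id) (fun v => D v * Real.exp (-(s * rate n k N (Ar j) v))) -
            Y S U D| ≤ β / 10 * k * (if Tch n N (Ar j) S then (1 : ℝ) else 0) := by
          split_ifs with hT
          · rw [mul_one]
            rcases hS with ⟨x, rfl⟩ | ⟨y, rfl⟩
            · exact hG4 x
            · exact hG5 y
          · rw [mul_zero]
            have e1 : S ∩ (U \ G.biUnion id) = S ∩ U := by
              ext v
              simp only [mem_inter, mem_sdiff]
              constructor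
              · rintro ⟨h7, h8, -⟩
                exact ⟨h7, h8⟩
              · rintro ⟨h7, h8⟩
                refine ⟨h7, h8, ?_⟩
                intro h9
                obtain ⟨K, hK, hv⟩ := mem_biUnion.1 h9
                obtain ⟨i, hi, hi2⟩ := hG3 K hK v hv
                exact hT ⟨v, h7, i, hi, hi2⟩
            have e2 : Y S (U \ G.biUnion id)
                (fun v => D v * Real.exp (-(s * rate n k N (Ar j) v))) = Y S U D := by
              unfold Y
              rw [e1]
              apply sum_congr rfl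
              intro v hv
              have hz := rate_zero (k := k) hT (mem_inter.1 hv).1
              simp only [hz, mul_zero, neg_zero, Real.exp_zero, mul_one]
            rw [e2]
            simp
        have h7 := abs_add_le
          (Y S (U \ G.biUnion id) (fun v => D v * Real.exp (-(s * rate n k N (Ar j) v))) - Y S U D)
          (Y S U D - Y S Bᶜ (fun _ => (1 : ℝ)))
        rw [sub_add_sub_cancel] at h7
        rw [mul_add]
        linarith
  obtain ⟨σ, F, hσ, hF1, hF2, hF3⟩ := claim J le_rfl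
  refine ⟨F, hF1, hF2, ?_⟩
  intro y
  have h5 := (hgood J le_rfl _ _ hF3).2 y
  -- `D ≤ exp (-τ/2)`
  have h6 : ∀ v, Dj n k N Ar σ J v ≤ Real.exp (-(τ / 2)) := by
    intro v
    unfold Dj
    apply Real.exp_le_exp.2
    have h7 : τ * ∑ i ∈ range J, rate n k N (Ar i) v ≤
        ∑ i ∈ range J, σ i * rate n k N (Ar i) v := by
      rw [mul_sum]
      apply sum_le_sum
      intro i hi
      exact mul_le_mul_of_nonneg_right (hσ i (mem_range.1 hi)).1 (AlmL.rate_nonneg _ _ _ _ _)
    rw [hsum v] at h7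
    have h8 : (1 : ℝ) / 2 ≤ ((N : ℝ) - k) / N := by
      rw [div_le_div_iff₀ (by norm_num) hNR]
      linarith
    have h9 : τ * (1 / 2) ≤ τ * (((N : ℝ) - k) / N) := mul_le_mul_of_nonneg_left h8 hτ.le
    linarith
  have h7 : (((B ∪ F.biUnion id)ᶜ ∩ win n k y).card : ℝ) ≤
      Real.exp (-(τ / 2)) * Y (win n k y) ((B ∪ F.biUnion id)ᶜ) (Dj n k N Ar σ J) := by
    unfold Y
    rw [mul_sum, inter_comm, card_eq_sum_ones]
    push_cast
    apply sum_le_sum
    intro v _
    have h8 : 0 < Dj n k N Ar σ J v := Real.exp_pos _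
    have h9 := h6 v
    rw [← div_eq_mul_inv, le_div_iff₀ h8]
    linarith
  refine h7.trans ?_
  have h8 : Real.exp (-(τ / 2)) * Y (win n k y) ((B ∪ F.biUnion id)ᶜ) (Dj n k N Ar σ J) ≤
      Real.exp (-(τ / 2)) * (2 * k) := mul_le_mul_of_nonneg_left h5 (Real.exp_pos _).le
  refine h8.trans ?_
  have h9 : Real.exp (-(τ / 2)) * (2 * k) = (2 * Real.exp (-(τ / 2))) * k := by ring
  rw [h9]
  exact mul_le_mul_of_nonneg_right hτδ hkR.le

theorem up (t : ℕ) (hA : T_ALM t) (hB : S_ABS) : T_UP t := by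
  classical
  intro ε ht hε hε1
  obtain ⟨γ, hγ, h1⟩ := hA ε ht hε hε1
  obtain ⟨δ, k₁, hδ, h2⟩ := hB t ε γ ht hε hε1 hγ
  obtain ⟨k₂, h3⟩ := h1 δ hδ
  refine ⟨max k₁ k₂, fun n k m _ M hM hk hm htn => ?_⟩
  obtain ⟨B, hB1, hB2⟩ := h2 n k m M hM ((le_max_left _ _).trans hk) (less t m (by omega) hm)
  obtain ⟨F, hF1, hF2, hF3⟩ := h3 n k m M hM ((le_max_right _ _).trans hk) hm B hB1
  have hT : Tile n k M t (F.biUnion id) := ⟨F, fun K hK => (hF1 K hK).1, hF2, rfl⟩
  have hd : Disjoint (F.biUnion id) B := by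
    rw [disjoint_biUnion_left]
    exact fun K hK => (hF1 K hK).2
  have e1 : B ∪ (B ∪ F.biUnion id)ᶜ = (F.biUnion id)ᶜ := by
    ext v
    have h4 : v ∈ B → v ∉ F.biUnion id := fun hv hv' => (Finset.disjoint_left.1 hd hv') hv
    simp only [mem_union, mem_compl]
    tauto
  have h5 : t ∣ (B ∪ (B ∪ F.biUnion id)ᶜ).card := by
    rw [e1]
    have h6 : (F.biUnion id)ᶜ.card + (F.biUnion id).card = n := by
      rw [Finset.card_compl_add_card, ZMod.card]
    exact (Nat.dvd_add_left (tile_card hT)).1 (by rw [h6]; exact htn)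
  have h7 := hB2 _ (by
    rw [Finset.disjoint_left]
    intro v hv hv'
    exact (mem_compl.1 hv) (mem_union_left _ hv')) hF3 h5
  rw [e1] at h7
  have h8 := tile_union h7 hT (by
    rw [Finset.disjoint_left]
    intro v hv hv'
    exact (mem_compl.1 hv) hv')
  rwa [union_comm, Finset.union_compl] at h8

open RedL in
/-- the leaf RED -/
theorem red (t : ℕ) (hup : T_UP t) (α : ℝ) (ht : 3 ≤ t) (hα : 1 - 1 / (2 * (t : ℝ)) < α) :
    α ∈ A t := by
  classical
  have htr : (3 : ℝ) ≤ t := by exact_mod_cast ht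
  have hs2 : (0 : ℝ) < 2 * (t : ℝ) := by linarith
  have hs4 : 1 / (2 * (t : ℝ)) ≤ 1 / 4 := by
    apply one_div_le_one_div_of_le (by norm_num)
    linarith
  refine ⟨by linarith, ?_⟩
  obtain ⟨β, hβ⟩ : ∃ β : ℝ, β = max (1 - α) 0 := ⟨_, rfl⟩
  have hβ0 : 0 ≤ β := by rw [hβ]; exact le_max_right _ _
  have hβα : 1 - α ≤ β := by rw [hβ]; exact le_max_left _ _
  have hβ1 : β < 1 / (2 * (t : ℝ)) := by
    rw [hβ]
    exact max_lt (by linarith) (by positivity)
  obtain ⟨ε, hε⟩ : ∃ ε : ℝ, ε = (1 - 2 * (t : ℝ) * β) / 2 := ⟨_, rfl⟩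
  have hε0 : 0 < ε := by
    rw [lt_div_iff₀ hs2] at hβ1
    rw [hε]
    linarith
  have hε1 : ε ≤ 1 := by
    rw [hε]
    have : 0 ≤ 2 * (t : ℝ) * β := by positivity
    linarith
  obtain ⟨k₁, hk₁⟩ := hup ε (by omega) hε0 hε1
  obtain ⟨k₂, hk₂⟩ := exists_nat_ge ((t : ℝ) * (1 + β) / ε)
  refine ⟨2 * (k₁ + k₂ + 1) + 1, fun k n hk hkk hkn htn H hH => ?_⟩
  have : NeZero n := ⟨by omega⟩
  obtain ⟨k', hk'⟩ : ∃ k' : ℕ, k' = min k ((n - 1) / 2) := ⟨_, rfl⟩
  have hk1 : k₁ + k₂ + 1 ≤ k' := by omega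
  have hk'n : 2 * k' + 1 ≤ n := by omega
  have hk'k : k' ≤ k := by omega
  obtain ⟨m, hm⟩ : ∃ m : ℕ, m = ⌊β * (2 * k' + 1)⌋₊ := ⟨_, rfl⟩
  obtain ⟨M, hM⟩ : ∃ M : ZMod n → Finset (ZMod n), M = fun x =>
    univ.filter (fun y => Near n k' x y ∧ ¬ H.Adj x y) := ⟨_, rfl⟩
  have hmem : ∀ x y, y ∈ M x ↔ Near n k' x y ∧ ¬ H.Adj x y := by
    intro x y
    rw [hM]
    simp
  have hhost : Host n k' m M := by
    refine ⟨by omega, hk'n, ?_, ?_, ?_, ?_⟩
    · intro x
      rw [hmem]
      exact ⟨⟨0, by simp, by simp⟩, H.loopless.irrefl x⟩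
    · intro x y h
      rw [hmem] at h ⊢
      obtain ⟨⟨i, hi, hy⟩, h2⟩ := h
      refine ⟨⟨-i, by rwa [abs_neg], ?_⟩, fun h3 => h2 h3.symm⟩
      rw [hy]
      push_cast
      ring
    · intro x y h
      rw [hmem] at h
      exact h.1
    · intro x
      have h1 : ((M x).erase x : Set (ZMod n)) ⊆ (cyc n k).neighborSet x \ H.neighborSet x := by
        intro y hy
        rw [mem_coe, mem_erase, hmem] at hy
        obtain ⟨hne, ⟨i, hi, hyi⟩, hnadj⟩ := hy
        refine ⟨⟨fun h => hne h.symm, i.natAbs, ?_, ?_, ?_⟩, hnadj⟩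
        · apply Int.natAbs_pos.2
          rintro rfl
          apply hne
          rw [hyi]
          simp
        · have : (i.natAbs : ℤ) ≤ k' := by rw [Int.natCast_natAbs]; exact hi
          omega
        · have e1 : ((i.natAbs : ℕ) : ZMod n) = ((i.natAbs : ℤ) : ZMod n) :=
            (Int.cast_natCast i.natAbs).symm
          rcases le_total 0 i with h3 | h3
          · left
            rw [e1, Int.natCast_natAbs, abs_of_nonneg h3, hyi]
            ring
          · right
            rw [e1, Int.natCast_natAbs, abs_of_nonpos h3, hyi]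
            push_cast
            ring
      have h2 : H.neighborSet x ⊆ (cyc n k).neighborSet x := fun y hy => hH.1 hy
      have h3 : ((M x).erase x).card ≤ deg (cyc n k) x - deg H x := by
        rw [← Set.ncard_coe_finset]
        refine (Set.ncard_le_ncard h1 (Set.toFinite _)).trans (le_of_eq ?_)
        rw [Set.ncard_sdiff h2 (Set.toFinite _)]
        rfl
      have h4 : deg H x ≤ deg (cyc n k) x := Set.ncard_le_ncard h2 (Set.toFinite _)
      have h5 : (((M x).erase x).card : ℝ) ≤ β * (2 * k' + 1) := by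
        have h6 : (((M x).erase x).card : ℝ) ≤ deg (cyc n k) x - deg H x := by
          have : (((M x).erase x).card : ℝ) ≤ ((deg (cyc n k) x - deg H x : ℕ) : ℝ) := by
            exact_mod_cast h3
          rwa [Nat.cast_sub h4] at this
        have h7 := hH.2 x
        have h8 : (deg (cyc n k) x : ℝ) ≤ 2 * k' + 1 := by
          rw [hk']
          exact_mod_cast deg_le x
        have h9 : (0 : ℝ) ≤ deg (cyc n k) x := Nat.cast_nonneg _
        calc (((M x).erase x).card : ℝ) ≤ deg (cyc n k) x - deg H x := h6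
          _ ≤ (1 - α) * deg (cyc n k) x := by linarith
          _ ≤ β * deg (cyc n k) x := mul_le_mul_of_nonneg_right hβα h9
          _ ≤ β * (2 * k' + 1) := mul_le_mul_of_nonneg_left h8 hβ0
      have h6 : ((M x).erase x).card ≤ m := by
        rw [hm]
        exact Nat.le_floor h5
      have h7 : (M x).card - 1 ≤ ((M x).erase x).card := pred_card_le_card_erase
      omega
  have hineq : (t : ℝ) * ((m : ℝ) + 1) ≤ (1 - ε) * k' := by
    have h1 : (m : ℝ) ≤ β * (2 * k' + 1) := by
      rw [hm]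
      exact Nat.floor_le (by positivity)
    have h2 : (t : ℝ) * (1 + β) ≤ ε * k' := by
      have h3 : (k₂ : ℝ) ≤ k' := by exact_mod_cast (by omega : k₂ ≤ k')
      have h4 := hk₂.trans h3
      rw [div_le_iff₀ hε0] at h4
      linarith
    have h3 : (t : ℝ) * (m + 1) ≤ t * (β * (2 * k' + 1) + 1) :=
      mul_le_mul_of_nonneg_left (by linarith) (by positivity)
    have h4 : (t : ℝ) * (β * (2 * k' + 1) + 1) = 2 * t * β * k' + t * (1 + β) := by
      ring
    have h5 : 2 * (t : ℝ) * β = 1 - 2 * ε := by rw [hε]; ring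
    rw [h4, h5] at h3
    linarith
  obtain ⟨F, hF1, hF2, hF3⟩ := hk₁ n k' m M hhost (by omega) hineq htn
  refine ⟨(F : Set (Finset (ZMod n))), ?_, ?_, ?_⟩
  · intro K hK
    have hcl := hF1 K hK
    rw [SimpleGraph.isNClique_iff]
    refine ⟨?_, hcl.1⟩
    intro x hx y hy hne
    obtain ⟨h1, h2⟩ := hcl.2 x hx y hy hne
    rw [hmem] at h2
    by_contra h3
    exact h2 ⟨h1, h3⟩
  · intro K hK L hL hne v hv hv'
    exact disjoint_left.1 (hF2 K hK L hL hne) hv hv'
  · intro v
    have : v ∈ F.biUnion id := by rw [hF3]; exact mem_univ _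
    rw [mem_biUnion] at this
    obtain ⟨K, hK, hv⟩ := this
    exact ⟨K, hK, hv⟩

end Pool.Agent.Helper74K9.HS
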