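import Pool.Agent.Helper83K9.CF.Main
import Pool.Agent.Helper74K9.HS.Fix

/-!
Clique factors in dense subgraphs of powers of cycles: bounds for all `t`.
-/

set_option autoImplicit false

namespace Pool.Agent.Helper74K9.HS

open Finset Pool.Agent.Helper83K9.CF

/-- the upper bound for all `t` -/
theorem upper (t : ℕ) (ht : 3 ≤ t) : Set.Ioi (1 - 1 / (2 * (t : ℝ))) ⊆ A t := by
  have h1 : T_FRAC t := frac t (dual t) farkas
  have h2 : T_DIST t := dist t h1
  have h3 : T_ARC1 t := arc1 t pot h2 bal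
  have h4 : T_ALM t := alm t h3 part rate_
  have h5 : S_ABS := abs_ (fam (fam1 comp))
  have h6 : T_UP t := up t h4 h5
  intro α hα
  exact red t h6 α ht hα

/-- the lower bound for all `t` -/
theorem lower (t : ℕ) (ht : 3 ≤ t) : A t ⊆ Set.Ioi (1 - 1 / (2 * ((t : ℝ) - 1))) := by
  intro α hα
  rw [Set.mem_Ioi]
  by_contra hcon
  exact low t ht (A_up hα (not_lt.1 hcon))

end Pool.Agent.Helper74K9.HS
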